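import Pool.Agent.helper92.VT.Spec

/-!
Row NMP: tree networks under ring homomorphisms.
-/

set_option autoImplicit false

universe u

namespace Pool.Agent.helper92.VT

open MvPolynomial Pool.Agent.helper92.VC

theorem NMP_aeval {n : ℕ} {K L : Type u} [Field K] [Field L] (j : K →+* L) (x : Fin n)
    (p : Polynomial K) :
    MvPolynomial.map j (Polynomial.aeval (X x : MvPolynomial (Fin n) K) p) =
      Polynomial.aeval (X x : MvPolynomial (Fin n) L) (p.map j) := by
  rw [Polynomial.aeval_def, Polynomial.aeval_def, Polynomial.hom_eval₂, Polynomial.eval₂_map]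
  congr 1
  · ext a
    simp [MvPolynomial.algebraMap_eq]
  · simp

theorem NMP_net {n : ℕ} {K L : Type u} [Field K] [Field L] (j : K →+* L) (w : ℕ)
    (t : Tr (Fin n)) : ∀ P : Fin w → MvPolynomial (Fin n) K, Net w t P →
      Net w t (fun s => MvPolynomial.map j (P s)) := by
  induction t with
  | leaf x =>
    intro P h s
    obtain ⟨p, hp⟩ := h s
    refine ⟨p.map j, ?_⟩
    rw [← NMP_aeval, ← hp]
  | node a b iha ihb =>
    rintro P ⟨Pa, Pb, ha, hb, q, hq⟩
    refine ⟨_, _, iha Pa ha, ihb Pb hb, fun s i k => j (q s i k), ?_⟩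
    intro s
    simp only [hq s, map_sum, map_mul, MvPolynomial.map_C]

theorem NMP : NMP_stmt.{u} := by
  rintro n K L _ _ j c w A ⟨B, hB, hA⟩
  refine ⟨fun i => MvPolynomial.map j (B i), ?_, ?_⟩
  · intro i
    obtain ⟨t, ht, P, hP, v, hv⟩ := hB i
    refine ⟨t, ht, fun s => MvPolynomial.map j (P s), NMP_net j w t P hP, fun s => j (v s), ?_⟩
    simp only [hv, map_sum, map_mul, MvPolynomial.map_C]
  · rw [hA, map_sum]

end Pool.Agent.helper92.VT
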